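import Pool.Agent.Y128.CX.Exact

/-!
# The motivic Tate conjecture for the sum of the motive of a cyclic covering and another motive

Let `F` be a finitely generated field of characteristic `0`, `p` an odd prime and `X` the covering
`y ^ p = G(x_0, ..., x_N)` of the projective space of dimension `N` branched along a smooth
hypersurface of degree `d` divisible by `p`, with its automorphism `σ` of order `p` (for `N = 1` these
are the curves `y ^ p = g(x)` with `g` of degree `d` without multiple roots). Let `V` be the dual of the
part of `H^N(X, ℚ_ℓ)` on which `σ` has no invariants; it is the realization of a motive. Suppose that

* all subgroups of finite index of the Galois group act irreducibly on the eigenspaces of `σ` over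
  the closure of `ℚ_ℓ` (`StronglyIrreducibleEigenspaces`; by the theorem of Carlson and Toledo this
  is so for all members of the universal family outside a thin set), and no power of some Frobenius
  element is a scalar on such an eigenspace (`NonscalarOnEigenspaces`),
* there is ONE element `g` of the Galois group which acts on `V` as a complex reflection for `σ`
  (`IsReflection`): inertia at a place where the branch divisor acquires one node, and the total
  space is regular.

Let `N'` be any motive over `F` and `M` the realization of a tensor construction on `N'`, with the
action `τ` of the Galois group. Suppose that `g` acts on `M` in a central way (`ActsCentrally`: it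
commutes with a subgroup of finite index; for instance `N'` has good reduction at the place above),
and that at ONE place of good reduction of `X` with residue characteristic `q` congruent to one modulo
`p` the eigenvalues of the powers of the Frobenius element `γ` on `M` which lie in the field of the
roots of unity of order `p` are square roots of powers of `q` (`CyclotomicEigenvaluesAreTate`; for
instance all eigenvalues on `N'` are powers of `q`, or `N' = 1`). `HasHodgeSumsWithValues` contains,
besides, the standard fact that the determinants of `γ` on the eigenspaces of `σ` are conjugate numbers
in this field with valuations given by the Hodge numbers of the eigenspaces (`coverHodge`).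

Theorem: for every subgroup `Δ` of finite index of the Galois group (for instance the whole group) and
every `n`, the invariants of `Δ` in `V^{* ⊗ n} ⊗ M` are exactly the linear combinations of the
products of the classes `ω(σ ^ i u, v)` of the graphs of the powers of `σ`, in pairs of factors, with
the invariants `y` of the same group `Δ` in the Tate twist of `M` by `N m`, `n = 2 m`; there are none
if `n` is odd. As `V` is self-dual up to a twist, all invariants in all tensor constructions on
the motive `V ⊕ N'` are motivic as soon as those on `N'` are (the graphs are algebraic): the motivic
Tate conjecture `G_ℓ = 𝒢_{ℚ_ℓ}` (with the groups of components, not only up to finite index) for `N'`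
implies the one for the motive `V ⊕ N'`. With `N' = 1` it holds for `V`, for the choice of the
motives for absolute Hodge cycles and for the one of André, and the group `G_ℓ` of `V` is the group of
the similitudes of `ω` commuting with `σ` up to its center and finite index. Nothing is assumed on the
semisimplicity of `M`.

Idea. The slices of an invariant `f` are forms on `V`; let `T` be the set of all translates of them
under the whole group. Commutators of `g` with elements of a normal subgroup of finite index fix all
elements of `T`, so that the differences of `g` and its conjugates generate a Lie algebra of operators
which kill `T` and preserve the form. It contains an operator concentrated in one pair of dual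
eigenspaces, since the reflection has pairwise different eigenvalues on the eigenspaces (averages over
its powers), in particular a nilpotent operator of rank one on an eigenspace; by strong irreducibility
it contains all operators of rank one with square zero, that is the derived algebra. So the weights
of an invariant have differences `c_j` which are constant along each eigenspace. The product of the
eigenvalues of `γ` on such a weight is, up to powers of `q`, the product of the determinants of `γ` on
the eigenspaces with multiplicities `c_j`; it is an eigenvalue of a power of `γ` on `M`, which lies in
the cyclotomic field, so that its square is a power of `q`. The valuations at the places above `q` are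
given by the Hodge numbers, and the nonvanishing of the generalized Bernoulli numbers of odd
characters shows that `c_j = c_{-j}`, so that all `c_j` vanish. Then the first fundamental theorem for
a product of general linear groups applies.
-/

namespace Pool.Agent.Results.MP_bbcdf5_ag.CyclicCoverMotives

open Pool.Agent.Y128.SJ Pool.Agent.Y128.CC Pool.Agent.Y128.CX

/-- The invariants of the Galois group in the tensor constructions on the sum of the motive of a
cyclic covering of a projective space and another motive. -/
theorem result {k V M Γ : Type} [Field k] [CharZero k] [AddCommGroup V] [Module k V]
    [FiniteDimensional k V] [AddCommGroup M] [Module k M] [FiniteDimensional k M] [Group Γ]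
    {p : ℕ} (hp : p.Prime) (hp2 : p ≠ 2) {N d : ℕ} (hN : 1 ≤ N) (hd : 3 ≤ d)
    (hr : 3 ≤ coverRank N d) (hNd : ¬(N = 2 ∧ d = 3))
    (ρ : Representation k Γ V) (τ : Representation k Γ M) (χ : Γ →* k)
    (ω : V →ₗ[k] V →ₗ[k] k) (σ : Module.End k V)
    (hX : CyclicModule p N (coverRank N d) ρ χ ω σ)
    (hirr : StronglyIrreducibleEigenspaces p ρ σ) (hF : NonscalarOnEigenspaces p ρ σ)
    (g : Γ) (hg : IsReflection p σ (ρ g)) (hgM : ActsCentrally τ g)
    (hγ : HasHodgeSumsWithValues p (coverHodge p N d) ρ χ σ τ)
    (Δ : Subgroup Γ) (hΔ : Δ.FiniteIndex) (n : ℕ)
    (f : MultilinearMap k (fun _ : Fin n => V) M) (hf : IsInvariantUnder ρ τ Δ f) :
    f ∈ Submodule.span k (graphProductsOver N χ ω σ τ Δ n) := by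
  have : Fact p.Prime := ⟨hp⟩
  exact exact hp2 hN hd hr hNd hX hγ hirr hF hg hgM hΔ hf

end Pool.Agent.Results.MP_bbcdf5_ag.CyclicCoverMotives
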