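import Pool.Agent.Y128.RT.Main
import Pool.Agent.TH776.FL.Main

/-!
# The Tate conjecture for the products of the powers of an abelian variety with singular varieties

Let `A` be an abelian variety over a finitely generated field `F` such that

* all Tate classes on all powers of `A` are linear combinations of products of classes of divisors
  (`TateGeneratedInDegreeTwo`) and no simple factor of `A` over the algebraic closure is of type III
  or IV in the classification of Albert (`SymplecticConstituents`), or
* all the endomorphisms of `A` over the algebraic closure are fixed by the Rosati involution
  (`RosatiTrivial`; for instance `End(A) = ℤ`) and the Frobenius polynomial at ONE place of good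
  reduction has no multiple roots and only trivial relations of length four between its roots.

Let `Y` be an ARBITRARY variety over the same field: a separated scheme of finite type, possibly
singular, reducible and not proper; nothing is known on `Y`, neither the semisimplicity nor the purity
of its etale (Borel-Moore) homology `M = H_b(Y, ℚ_ℓ(c))`. Suppose that for every abelian subvariety
`B ≠ 0` of `A` there is an element `g` of the Galois group which acts on `M` in a central way (its
action commutes with the one of a subgroup of finite index), and no positive power of which acts
on the Tate module of `B` as a scalar (`NonscalarCentralElements`; by the theorem of Faltings and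
Zarhin the subspaces `W` in the definition are those of the abelian subvarieties). This is true, for
instance,

* if `B` has a place of bad and not potentially good reduction at which inertia acts potentially
  trivially on `M` (`g` in the inertia group, `nonscalar_of_unipotent`);
* if a subgroup of finite index acts on `M` through a commutative group (`nonscalar_of_commutative`),
  for instance for toric and cellular varieties, for all `Y` whose homology is a sum of tensor
  constructions on abelian varieties with complex multiplication, and over function fields over
  finite fields for all constant varieties `Y`, if `B` has one place of good reduction which is not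
  supersingular;
* if the Frobenius element of one place acts as a scalar on `M` and no power of it acts as a scalar
  on `B`.

Theorem: all invariants (under subgroups of finite index) in the space
`H_a(A^n, ℚ_ℓ) ⊗ H_b(Y, ℚ_ℓ(c))` for all `n` and `a` are linear combinations of products
`(B 1 ∧ ... ∧ B m) ⊗ y`, where the `B l` are Tate classes of degree two on `A ^ n` (classes of
divisors) and `y` is a Tate class on `Y` in `H_b(Y)`, with twist `c - m`; there are none if `a` is odd.
By the formula of Künneth for Borel-Moore homology the statement (a) of Jannsen holds for the singular
varieties `A ^ n × Y` and all their base extensions, for all `n` and in all dimensions, if and only if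
it holds for `Y` (if the hypothesis holds for all `b`). The reduction of Jannsen to smooth projective
varieties needs the Tate conjecture for a smooth proper cover of `A ^ n × Y`, for which nothing is
known here.

In the Lean statement `V` is the rational Tate module of `A` with the action `ρ` of the Galois group,
`ω` is the Weil pairing of a polarization, `χ` the cyclotomic character, `M` any finite dimensional
representation.

Idea. The components of an invariant `f` in `H_a(A^n) ⊗ M` span a space `U` of forms which is stable
under a subgroup of finite index. For an operator `T` with `T = s u` its multiplicative Jordan
decomposition, the logarithm of `u` and the diagonal operators with eigenvalues `λ(μ)`, where `μ` is an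
eigenvalue of `s` and `λ` a homomorphism from the multiplicative group to the additive group, act on
all spaces of forms as polynomials in `T`. For `T = χ(g)⁻¹ ρ(g) ^ 2` such an operator `x` is in the Lie
algebra of the endomorphisms which kill the bilinear Tate forms, and since `g` acts on `U` centrally
the differences of `x` and its conjugates kill `U`. The operators which kill `U` form an ideal in this
Lie algebra (a projection onto it is equivariant, so it is a Tate form of degree four, and it commutes
with the Lie algebra since the Tate forms are known), and the ideal is nonzero on each constituent; so
it is everything, and the first fundamental theorem for products of symplectic Lie algebras applies.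
-/

namespace Pool.Agent.Results.MP_4776b1_ag.PowersTimesSingular

open Pool.Agent.H204R3.GP Pool.Agent.TH776.FM Pool.Agent.TH776.FL Pool.Agent.W516.FT
  Pool.Agent.Y128.GT Pool.Agent.Y128.RT

/-- Tate classes on the products of the powers of an abelian variety with arbitrary, possibly singular
varieties. -/
theorem result {k V M Γ : Type} [Field k] [CharZero k] [AddCommGroup V] [Module k V]
    [FiniteDimensional k V] [AddCommGroup M] [Module k M] [FiniteDimensional k M] [Group Γ]
    (ρ : Representation k Γ V) (τ : Representation k Γ M) (χ : Γ →* k)
    (ω : V →ₗ[k] V →ₗ[k] k) (hA : IsTateModule ρ χ ω)
    (h : (TateGeneratedInDegreeTwo ρ χ ∧ SymplecticConstituents ρ χ) ∨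
      (RosatiTrivial ρ ω ∧ ∃ (γ : Γ) (q : ℕ) (P : Polynomial ℚ), χ γ = q ∧ P.Separable ∧
        (ρ γ).charpoly = P.map (algebraMap ℚ k) ∧ OnlyTrivialRelationsOfLengthFour P q))
    (hY : NonscalarCentralElements ρ τ) (n a : ℕ) (f : (Fin n → V) [⋀^Fin a]→ₗ[k] M)
    (hf : IsTateClassWithValues ρ τ f) :
    f ∈ Submodule.span k (productClasses ρ χ τ n a) := by
  rcases h with ⟨h1, h2⟩ | ⟨h1, γ, q, P, h2, h3, h4, h5⟩
  · exact main_rel hA h1 h2 (hY.infinite χ) f hf
  · exact main_rel hA (tate_of_rosati hA h2 h3 h4 h5 h1) (symplectic_of_rosati hA h1)
      (hY.infinite χ) f hf

end Pool.Agent.Results.MP_4776b1_ag.PowersTimesSingular
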